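import Mathlib
import Pool.Agent.Helper9.NS
import Pool.Agent.Helper15.GT.RP
import Pool.Agent.Helper17.FF.Approx

/-!
# IV: points of a model of a product of curves over a general point of a fibre
-/

set_option linter.unusedSectionVars false

namespace Pool.Agent.Helper98.IV

open VC VF Pool.Agent.Helper15.GT Pool.Agent.Helper21.TO
open scoped TensorProduct

universe u

variable {k : Type u} [Field k] [IsAlgClosed k] [CharZero k] {F₁ F₂ F : Type u} [Field F₁] [Algebra k F₁]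
  [Field F₂] [Algebra k F₂] [Field F] [Algebra k F]

/-- A function with a simple zero at `Q`, without zeros and poles at the other places of a finite set. -/
theorem approx (h₂ : IsFunctionField k F₂) (Q : Place k F₂) (B : Set (Place k F₂)) (hB : B.Finite) :
    ∃ g : F₂, g ≠ 0 ∧ ord Q.ring g = 1 ∧ ∀ z ∈ B, z ≠ Q → ord z.ring g = 0 := by
  classical
  obtain ⟨π, hπ⟩ := FF.exists_val_pi h₂ Q
  obtain ⟨g, hg⟩ := FF.approx h₂ (insert Q hB.toFinset) (fun P => if P = Q then π else 1) (-1)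
  have h1 : FF.val h₂ Q (g - π) < WithZero.exp (-1 : ℤ) := by
    have h := hg Q (Finset.mem_insert_self _ _)
    rwa [if_pos rfl] at h
  have h2 : FF.val h₂ Q g = WithZero.exp (-1 : ℤ) := by
    have e : g = π + (g - π) := by ring
    rw [e, Valuation.map_add_eq_of_lt_left _ (by rw [hπ]; exact h1), hπ]
  have hg0 : g ≠ 0 := by
    rintro rfl
    rw [map_zero] at h2
    exact WithZero.exp_ne_zero h2.symm
  refine ⟨g, hg0, (FF.ord_eq_iff h₂ Q hg0 1).mpr h2, fun z hz hzQ => ?_⟩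
  have h3 : FF.val h₂ z (g - 1) < WithZero.exp (-1 : ℤ) := by
    have h := hg z (Finset.mem_insert_of_mem (hB.mem_toFinset.mpr hz))
    rwa [if_neg hzQ] at h
  have h4 : FF.val h₂ z (g - 1) < 1 := h3.trans (by
    rw [← WithZero.exp_zero, WithZero.exp_lt_exp]
    norm_num)
  have h5 : FF.val h₂ z g = 1 := by
    have e : g = 1 + (g - 1) := by ring
    rw [e, Valuation.map_add_eq_of_lt_left _ (by rw [map_one]; exact h4), map_one]
  rw [FF.ord_eq_iff h₂ z hg0 0, h5, neg_zero, WithZero.exp_zero]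

lemma finite_notMem (h₂ : IsFunctionField k F₂) (f : F₂) : {w : Place k F₂ | f ∉ w.ring}.Finite := by
  by_cases hf : f = 0
  · subst hf
    have e : {w : Place k F₂ | (0 : F₂) ∉ w.ring} = ∅ := by
      ext w
      simp only [Set.mem_ofPred_eq, Set.mem_empty_iff_false, iff_false, not_not]
      exact w.ring.zero_mem
    rw [e]
    exact Set.finite_empty
  · refine (finite_support_ord h₂ hf).subset fun w hw h0 => hw ?_
    exact (FF.ord_nonneg_iff h₂ w hf).mp h0.ge

lemma finite_zero (h₂ : IsFunctionField k F₂) {f : F₂} (hf : f ≠ 0) :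
    {w : Place k F₂ | f ∈ w.ring.nonunits}.Finite :=
  (finite_support_ord h₂ hf).subset fun w hw => ((FF.ord_pos_iff h₂ w hf).mpr hw).ne'

/-- The values of the point `ξ` at the places over the points `(Q, z)` do not depend on the place for general `z`. -/
theorem genz (h₁ : IsFunctionField k F₁) (h₂ : IsFunctionField k F₂) (κ₁ : F₁ →ₐ[k] F) (κ₂ : F₂ →ₐ[k] F)
    (hinj : Function.Injective (Algebra.TensorProduct.productMap κ₁ κ₂))
    (hgen : ∀ z : F, ∃ a b : F₁ ⊗[k] F₂, b ≠ 0 ∧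
      z * Algebra.TensorProduct.productMap κ₁ κ₂ b = Algebra.TensorProduct.productMap κ₁ κ₂ a)
    {M : ℕ} (ξ : Fin M → F) (hξ : ξ ≠ 0) (Q : Place k F₁) :
    ∃ B : Set (Place k F₂), B.Finite ∧ ∀ z ∉ B, ∀ w w' : RPl k F, w.pl h₁ κ₁ = Q → w'.pl h₁ κ₁ = Q →
      w.pl h₂ κ₂ = z → w'.pl h₂ κ₂ = z → evP ξ hξ w = evP ξ hξ w' := by
  classical
  set pm := Algebra.TensorProduct.productMap κ₁ κ₂ with hpm
  have pm_tmul : ∀ a b, pm (a ⊗ₜ[k] b) = κ₁ a * κ₂ b := fun a b =>
    Algebra.TensorProduct.productMap_apply_tmul κ₁ κ₂ a b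
  choose a b hb hab using hgen
  -- a common denominator
  obtain ⟨r0, hr0, A, hA⟩ : ∃ r0 : F, r0 ≠ 0 ∧ ∃ A : Fin M → F₁ ⊗[k] F₂, ∀ i, r0 * ξ i = pm (A i) := by
    refine ⟨∏ i, pm (b (ξ i)), Finset.prod_ne_zero_iff.mpr fun i _ => ?_,
      fun i => a (ξ i) * ∏ j ∈ Finset.univ.erase i, b (ξ j), fun i => ?_⟩
    · intro h0
      exact hb (ξ i) (hinj (h0.trans (map_zero pm).symm))
    · rw [map_mul, map_prod, ← Finset.mul_prod_erase Finset.univ (fun j => pm (b (ξ j))) (Finset.mem_univ i), ← hab]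
      ring
  obtain ⟨i0, hi0⟩ := Function.ne_iff.mp hξ
  have hi0' : ξ i0 ≠ 0 := hi0
  have hA0 : A i0 ≠ 0 := by
    intro h0
    have h1 := hA i0
    rw [h0, map_zero] at h1
    exact (mul_ne_zero hr0 hi0') h1
  -- coordinates with respect to a basis
  let bas := Module.Basis.ofVectorSpace k F₂
  let e := TensorProduct.equivFinsuppOfBasisRight (M := F₁) bas
  obtain ⟨J, hJ⟩ : ∃ J : Finset (Module.Basis.ofVectorSpaceIndex k F₂), ∀ i, (e (A i)).support ⊆ J :=
    ⟨Finset.univ.biUnion fun i => (e (A i)).support, fun i => Finset.subset_biUnion_of_mem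
      (fun i => (e (A i)).support) (Finset.mem_univ i)⟩
  have hAe : ∀ i, A i = ∑ l ∈ J, (e (A i) l) ⊗ₜ[k] bas l := by
    intro i
    have h1 : A i = (e (A i)).sum fun l x => x ⊗ₜ[k] bas l := by
      conv_lhs => rw [← e.symm_apply_apply (A i)]
      rw [TensorProduct.equivFinsuppOfBasisRight_symm_apply]
    conv_lhs => rw [h1]
    exact Finsupp.sum_of_support_subset _ (hJ i) _ fun l _ => TensorProduct.zero_tmul _ _
  -- scaling at `Q`
  let T := Fin M × J
  let eT : T ≃ Fin (Fintype.card T) := Fintype.equivFin T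
  let c0 : Fin (Fintype.card T) → F₁ := fun t => e (A (eT.symm t).1) (eT.symm t).2
  have hc0 : c0 ≠ 0 := by
    intro h0
    apply hA0
    rw [hAe i0]
    refine Finset.sum_eq_zero fun l hl => ?_
    have h1 : c0 (eT (i0, ⟨l, hl⟩)) = 0 := congrFun h0 _
    have h2 : c0 (eT (i0, ⟨l, hl⟩)) = e (A i0) l := by
      change e (A (eT.symm (eT (i0, ⟨l, hl⟩))).1) (eT.symm (eT (i0, ⟨l, hl⟩))).2 = _
      rw [Equiv.symm_apply_apply]
    rw [← h2, h1, TensorProduct.zero_tmul]
  obtain ⟨t1, ht1, hmax⟩ := exists_max Q.ring c0 hc0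
  have hmem : ∀ i (l : J), e (A i) l * (c0 t1)⁻¹ ∈ Q.ring := by
    intro i l
    have h1 := hmax (eT (i, l))
    have h2 : c0 (eT (i, l)) = e (A i) l := by
      change e (A (eT.symm (eT (i, l))).1) (eT.symm (eT (i, l))).2 = _
      rw [Equiv.symm_apply_apply]
    rwa [h2] at h1
  choose c hc using fun i l => exists_res h₁ (hmem i l)
  have hc1 : c (eT.symm t1).1 (eT.symm t1).2 = 1 := by
    refine (hc _ _).unique ?_
    have h1 : e (A (eT.symm t1).1) (eT.symm t1).2 * (c0 t1)⁻¹ = 1 := mul_inv_cancel₀ ht1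
    rw [h1]
    exact isRes_one
  -- the function which does not vanish on the fibre
  let Ab : Fin M → F₂ := fun i => ∑ l : J, algebraMap k F₂ (c i l) * bas l
  have hAb : Ab (eT.symm t1).1 ≠ 0 := by
    intro h0
    have h1 : ∑ l : J, c (eT.symm t1).1 l • bas (l : _) = 0 := by
      rw [← h0]
      exact Finset.sum_congr rfl fun l _ => Algebra.smul_def _ _
    have h2 := (Fintype.linearIndependent_iff.mp (bas.linearIndependent.comp (fun l : J => (l : _))
      Subtype.val_injective)) (c (eT.symm t1).1) h1 (eT.symm t1).2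
    rw [hc1] at h2
    exact one_ne_zero h2
  refine ⟨(⋃ l : J, {z | bas (l : _) ∉ z.ring}) ∪ {z | Ab (eT.symm t1).1 ∈ z.ring.nonunits},
    (Set.finite_iUnion fun l => finite_notMem h₂ _).union (finite_zero h₂ hAb), fun z hz w w' hw hw' hwz hwz' => ?_⟩
  rw [Set.mem_union, not_or, Set.mem_iUnion, not_exists] at hz
  have hz1 : ∀ l : J, bas (l : _) ∈ z.ring := fun l => not_not.mp (hz.1 l)
  choose β hβ using fun l : J => exists_res h₂ (hz1 l)
  have hAbr : ∀ i, IsRes z (Ab i) (∑ l : J, c i l * β l) := fun i =>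
    IsRes.sum _ fun l _ => (isRes_const _).mul (hβ l)
  let b' : Fin M → k := fun i => ∑ l : J, c i l * β l
  have hb' : b' ≠ 0 := by
    intro h0
    apply hz.2
    have h1 := hAbr (eT.symm t1).1
    have h2 : ∑ l : J, c (eT.symm t1).1 l * β l = 0 := congrFun h0 _
    rw [h2] at h1
    exact isRes_zero_iff.mp h1
  have key : ∀ v : RPl k F, v.pl h₁ κ₁ = Q → v.pl h₂ κ₂ = z → Vl v ξ b' := by
    intro v hv hvz
    refine ⟨hb', r0 * κ₁ (c0 t1)⁻¹, fun i => ?_⟩
    have h1 : r0 * κ₁ (c0 t1)⁻¹ * ξ i = ∑ l : J, κ₁ (e (A i) l * (c0 t1)⁻¹) * κ₂ (bas l) := by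
      rw [mul_right_comm, hA i]
      conv_lhs => rw [hAe i]
      rw [map_sum, Finset.sum_mul, ← Finset.sum_coe_sort J]
      refine Finset.sum_congr rfl fun l _ => ?_
      rw [pm_tmul, map_mul]
      ring
    rw [h1]
    refine Rs.sum _ fun l _ => ?_
    have h2 := hc i l
    rw [← hv] at h2
    have h3 := hβ l
    rw [← hvz] at h3
    exact ((isRes_pl h₁ κ₁ v _ _).mp h2).mul ((isRes_pl h₂ κ₂ v _ _).mp h3)
  have h1 := key w hw hwz
  have h2 := key w' hw' hwz'
  rw [evP_eq hξ h1 h1.1 h1.sat, evP_eq hξ h2 h2.1 h2.sat]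

end Pool.Agent.Helper98.IV
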