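import Mathlib
import Pool.Agent.Helper26.VC.Final
import Pool.Agent.Helper17.IV.Defs

/-!
# IV: Voisin's property for the function field of a product of two curves
-/

set_option linter.unusedSectionVars false

namespace Pool.Agent.Helper98.IV

open VC VF Function Pool.Agent.Helper21.TO Pool.Agent.Helper15.GT Pool.Agent.Helper15.JD Pool.Agent.Helper15.JC
open Pool.Agent.Helper17.IV (StmtFact)
open scoped TensorProduct

universe u

variable {k : Type u} [Field k] [IsAlgClosed k] [CharZero k]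

/-- Change of the variety in the values of functionals on exterior products. -/
theorem lin_transfer {W : Type*} {S X : Variety k} (eS : W → S.Pt) (eX : W → X.Pt) {n : ℕ}
    (Φ : (S.pow n).Pt → k) (Ψ : (X.pow n).Pt → k)
    (h : ∀ w : Fin n → W, Φ (fun i => eS (w i)) = Ψ (fun i => eX (w i))) (a : Fin n → (W →₀ ℤ)) :
    Finsupp.linearCombination ℤ Φ (extProd (X := S) fun i => (a i).mapDomain eS) =
      Finsupp.linearCombination ℤ Ψ (extProd (X := X) fun i => (a i).mapDomain eX) := by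
  classical
  let T1 : MultilinearMap ℤ (fun _ : Fin n => (W →₀ ℤ)) k :=
    (TM S Φ).compLinearMap fun _ => Finsupp.lmapDomain ℤ ℤ eS
  let T2 : MultilinearMap ℤ (fun _ : Fin n => (W →₀ ℤ)) k :=
    (TM X Ψ).compLinearMap fun _ => Finsupp.lmapDomain ℤ ℤ eX
  have h12 : T1 = T2 := by
    apply Module.Basis.ext_multilinear (fun _ => (Finsupp.basisSingleOne : Module.Basis W ℤ _))
    intro w
    simp only [Finsupp.coe_basisSingleOne, T1, T2, MultilinearMap.compLinearMap_apply, Finsupp.lmapDomain_apply,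
      Finsupp.mapDomain_single, TM_apply]
    have h1 : extProd (X := S) (fun i => Finsupp.single (eS (w i)) (1 : ℤ)) =
        Finsupp.single (fun i => eS (w i)) 1 := ext'_single _
    have h2 : extProd (X := X) (fun i => Finsupp.single (eX (w i)) (1 : ℤ)) =
        Finsupp.single (fun i => eX (w i)) 1 := ext'_single _
    rw [h1, h2, Finsupp.linearCombination_single, Finsupp.linearCombination_single, h w]
  exact congrArg (fun T : MultilinearMap ℤ (fun _ : Fin n => (W →₀ ℤ)) k => T a) h12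

/-- The image of an Albanese trivial cycle on a curve. -/
theorem aja_map {F K : Type u} [Field F] [Algebra k F] [Field K] [Algebra k K] (hK : IsFunctionField k K)
    (κ : K →ₐ[k] F) {a : RPl k (AlgebraicClosure F) →₀ ℤ} (ha : AJA k F a) :
    a.mapDomain (fun w => (w.comap (iF k F)).pl hK κ) ∈ (curve hK).Rat := by
  have h1 := ha.2 K hK (Finsupp.single ((iF k F).comp κ) 1) (by
    intro e he
    rw [Finsupp.mapDomain_single]
    congr 1
    ext z
    exact he (κ z))
  rw [Finsupp.sum_single_index (by rw [zero_smul]), one_smul] at h1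
  exact h1

/-- [PRODR] -/
theorem prodr (hF : StmtFact.{u}) {F₁ F₂ F : Type u} [Field F₁] [Algebra k F₁] [Field F₂] [Algebra k F₂]
    [Field F] [Algebra k F] (h₁ : IsFunctionField k F₁) (h₂ : IsFunctionField k F₂) (κ₁ : F₁ →ₐ[k] F)
    (κ₂ : F₂ →ₐ[k] F) (hinj : Injective (Algebra.TensorProduct.productMap κ₁ κ₂))
    (hgen : ∀ z : F, ∃ a b : F₁ ⊗[k] F₂, b ≠ 0 ∧
      z * Algebra.TensorProduct.productMap κ₁ κ₂ b = Algebra.TensorProduct.productMap κ₁ κ₂ a)
    {g₁ g₂ : ℕ} (hg₁ : IsGenus k F₁ g₁) (hg₂ : IsGenus k F₂ g₂) : VPA k F (g₁ * g₂) := by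
  classical
  intro M ξ hξ n hn b hb
  choose a ha hba using hb
  refine separation ((proj k (van k ξ)).pow n) _ fun Φ hΦ => ?_
  obtain ⟨Ψ, hΨ, hΦΨ⟩ := hF k F₁ F₂ F h₁ h₂ κ₁ κ₂ hinj hgen M ξ hξ n Φ hΦ
  let W := RPl k (AlgebraicClosure F)
  let eS : W → (proj k (van k ξ)).Pt := fun w => evP ξ hξ (w.comap (iF k F))
  let eX : W → ((curve h₁).prod (curve h₂)).Pt := fun w =>
    ((w.comap (iF k F)).pl h₁ κ₁, (w.comap (iF k F)).pl h₂ κ₂)
  obtain ⟨m, hm, hmem⟩ := alternating_product h₁ h₂ n g₁ g₂ hg₁.1 hg₂.1 hn (fun i => (a i).mapDomain eX)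
    (fun i => ⟨by
      rw [← Finsupp.mapDomain_comp]
      exact aja_map h₁ κ₁ (ha i), by
      rw [← Finsupp.mapDomain_comp]
      exact aja_map h₂ κ₂ (ha i)⟩)
  have h1 := hΨ _ hmem
  rw [map_nsmul, smul_eq_zero] at h1
  have h2 := h1.resolve_left hm.ne'
  rw [map_sum] at h2 ⊢
  rw [← h2]
  refine Finset.sum_congr rfl fun σ _ => ?_
  rw [map_smul, map_smul]
  congr 1
  have e : (fun i => b (σ i)) = fun i => (a (σ i)).mapDomain eS := by
    funext i
    exact hba (σ i)
  rw [e]
  exact lin_transfer (S := proj k (van k ξ)) (X := (curve h₁).prod (curve h₂)) eS eX Φ Ψ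
    (fun w => hΦΨ fun i => (w i).comap (iF k F)) fun i => a (σ i)

end Pool.Agent.Helper98.IV
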